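import Pool.Agent.REV.StmtsA2

set_option autoImplicit false

namespace Pool.Agent.REV.H17

open Set MeasureTheory Pool.Agent.REV

/-- the integrand -/
noncomputable def FF (f : ℝ → ℝ) (g c x : ℝ) : ℝ := x ^ 2 * (1 - x ^ 2 / c ^ 2) ^ g * f x

theorem u_bd (c x : ℝ) (hc : 0 < c) (h0 : 0 ≤ x) (h1 : x ≤ c) :
    0 ≤ 1 - x ^ 2 / c ^ 2 ∧ 1 - x ^ 2 / c ^ 2 ≤ 1 := by
  have h2 : x ^ 2 ≤ c ^ 2 := by nlinarith
  have h3 : x ^ 2 / c ^ 2 ≤ 1 := by rw [div_le_one (by positivity)]; exact h2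
  have h4 : 0 ≤ x ^ 2 / c ^ 2 := by positivity
  exact ⟨by linarith, by linarith⟩

theorem FF_int (f : ℝ → ℝ) (hf : Adm f) (g c a b : ℝ) (hg : 0 ≤ g) (hc : 0 < c) (hc1 : c ≤ 1)
    (ha : 0 ≤ a) (hab : a ≤ b) (hb : b ≤ c) : IntervalIntegrable (FF f g c) volume a b := by
  rw [intervalIntegrable_iff_integrableOn_Ioc_of_le hab]
  obtain ⟨B, hB⟩ := hf.bdd
  have hm : Measurable (FF f g c) := by
    unfold FF
    refine Measurable.mul (Measurable.mul (by fun_prop) ?_) hf.meas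
    exact Measurable.pow_const (by fun_prop) g
  refine Measure.integrableOn_of_bounded (M := B) (by simp) hm.aestronglyMeasurable ?_
  rw [ae_restrict_iff' measurableSet_Ioc]
  refine ae_of_all _ fun x hx => ?_
  have hx0 : 0 ≤ x := ha.trans hx.1.le
  have hxc : x ≤ c := hx.2.trans hb
  have hxm : x ∈ Icc (0 : ℝ) 1 := ⟨hx0, hxc.trans hc1⟩
  have hu := u_bd c x hc hx0 hxc
  have h1 : (1 - x ^ 2 / c ^ 2) ^ g ≤ 1 := Real.rpow_le_one hu.1 hu.2 hg
  have h1' : 0 ≤ (1 - x ^ 2 / c ^ 2) ^ g := Real.rpow_nonneg hu.1 _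
  have h2 : x ^ 2 ≤ 1 := by nlinarith [hxm.2]
  have h3 := hf.nonneg x hxm
  have h4 := hB x hxm
  unfold FF
  rw [Real.norm_eq_abs, abs_of_nonneg (by positivity)]
  have h5 : x ^ 2 * (1 - x ^ 2 / c ^ 2) ^ g ≤ 1 := mul_le_one₀ h2 h1' h1
  calc x ^ 2 * (1 - x ^ 2 / c ^ 2) ^ g * f x ≤ 1 * f x := mul_le_mul_of_nonneg_right h5 h3
    _ ≤ B := by rw [one_mul]; exact h4

/-- the power inequality -/
theorem pow_key (u v g : ℝ) (hu : 0 < u) (hu1 : u ≤ 1) (hv : 0 ≤ v) (hvu : v ≤ u) (hg : 1 / 2 ≤ g) :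
    u ^ g - v ^ g ≤ max 1 g * u ^ (-(1 / 2) : ℝ) * (u - v) := by
  have hw0 : 0 ≤ v / u := by positivity
  have hw1 : v / u ≤ 1 := by rw [div_le_one hu]; exact hvu
  have hk : 1 - (v / u) ^ g ≤ max 1 g * (1 - v / u) := by
    rcases le_total 1 g with h | h
    · rw [max_eq_right h]
      have := one_add_mul_self_le_rpow_one_add (s := v / u - 1) (by linarith) h
      have e : 1 + (v / u - 1) = v / u := by ring
      rw [e] at this
      nlinarith
    · rw [max_eq_left h]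
      have : (v / u) ^ (1 : ℝ) ≤ (v / u) ^ g := by
        rcases hw0.eq_or_lt with h0 | h0
        · rw [← h0, Real.zero_rpow one_ne_zero, Real.zero_rpow (by linarith)]
        · exact Real.rpow_le_rpow_of_exponent_ge h0 hw1 h
      rw [Real.rpow_one] at this
      linarith
  have e1 : v = u * (v / u) := by field_simp
  have e2 : v ^ g = u ^ g * (v / u) ^ g := by
    rw [← Real.mul_rpow hu.le hw0, ← e1]
  have hug : 0 < u ^ g := Real.rpow_pos_of_pos hu _
  have h1v : 0 ≤ 1 - v / u := by linarith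
  have hmx : 0 ≤ max 1 g := le_trans zero_le_one (le_max_left _ _)
  have h3 : u ^ g ≤ u ^ (-(1 / 2) : ℝ) * u := by
    have : u ^ (-(1 / 2) : ℝ) * u = u ^ (-(1 / 2) + 1 : ℝ) := by
      rw [Real.rpow_add hu, Real.rpow_one]
    rw [this]
    exact Real.rpow_le_rpow_of_exponent_ge hu hu1 (by linarith)
  calc u ^ g - v ^ g = u ^ g * (1 - (v / u) ^ g) := by rw [e2]; ring
    _ ≤ u ^ g * (max 1 g * (1 - v / u)) := mul_le_mul_of_nonneg_left hk hug.le
    _ ≤ (u ^ (-(1 / 2) : ℝ) * u) * (max 1 g * (1 - v / u)) :=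
        mul_le_mul_of_nonneg_right h3 (mul_nonneg hmx h1v)
    _ = max 1 g * u ^ (-(1 / 2) : ℝ) * (u * (1 - v / u)) := by ring
    _ = max 1 g * u ^ (-(1 / 2) : ℝ) * (u - v) := by
        congr 1
        field_simp

theorem wt_int (hpwi : PwiStmt) (c : ℝ) (hc : 0 < c) :
    IntervalIntegrable (fun x : ℝ => x * (1 - x ^ 2 / c ^ 2) ^ (-(1 / 2) : ℝ)) volume 0 c ∧
      ∫ x in (0 : ℝ)..c, x * (1 - x ^ 2 / c ^ 2) ^ (-(1 / 2) : ℝ) = c ^ 2 := by
  obtain ⟨h1, h2⟩ := hpwi.2 (1 / 2) (by norm_num) (by norm_num)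
  have e : (fun x : ℝ => x * (1 - x ^ 2 / c ^ 2) ^ (-(1 / 2) : ℝ)) =
      fun x : ℝ => c * ((fun r : ℝ => r * (1 - r ^ 2) ^ (-(1 / 2) : ℝ)) (x / c)) := by
    funext x
    simp only
    rw [div_pow]
    field_simp
  constructor
  · rw [e]
    apply IntervalIntegrable.const_mul
    have := h1.comp_mul_left (c := c⁻¹)
    have e2 : (fun x : ℝ => (c⁻¹ * x) * (1 - (c⁻¹ * x) ^ 2) ^ (-(1 / 2) : ℝ)) =
      fun x : ℝ => ((fun r : ℝ => r * (1 - r ^ 2) ^ (-(1 / 2) : ℝ)) (x / c)) := by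
      funext x
      have e3 : x / c = c⁻¹ * x := by rw [div_eq_inv_mul]
      simp only [e3]
    rw [e2] at this
    simpa using this
  · have h3 := intervalIntegral.integral_comp_div (a := (0 : ℝ)) (b := c)
      (fun r : ℝ => r * (1 - r ^ 2) ^ (-(1 / 2) : ℝ)) hc.ne'
    rw [zero_div, div_self hc.ne', h2] at h3
    rw [e, intervalIntegral.integral_const_mul, h3]
    simp only [smul_eq_mul]
    ring

theorem lpb (_hint : IntStmt) (hcrc : CrcStmt) (hpwi : PwiStmt) : LpbStmt := by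
  intro n M p q f hn hM hf hfM hp hpq hq
  have hnR : (4 : ℝ) ≤ n := by exact_mod_cast hn
  have hp2 : p ^ 2 ≤ q ^ 2 := by nlinarith
  have hq2 : q ^ 2 ≤ 1 / 4 := by nlinarith
  set c := Real.sqrt (1 - p ^ 2) with hcdef
  set d := Real.sqrt (1 - q ^ 2) with hddef
  have hc2 : c ^ 2 = 1 - p ^ 2 := Real.sq_sqrt (by linarith)
  have hd2 : d ^ 2 = 1 - q ^ 2 := Real.sq_sqrt (by linarith)
  have hc0 : 0 < c := Real.sqrt_pos.mpr (by linarith)
  have hd0 : 0 < d := Real.sqrt_pos.mpr (by linarith)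
  have hdc : d ≤ c := Real.sqrt_le_sqrt (by linarith)
  have hc1 : c ≤ 1 := Real.sqrt_le_one.mpr (by nlinarith [sq_nonneg p])
  have hd1 : d ≤ 1 := hdc.trans hc1
  have hD : 0 ≤ q ^ 2 - p ^ 2 := by linarith
  set D := q ^ 2 - p ^ 2 with hDdef
  set g := ((n : ℝ) - 4) / 2 with hgdef
  have hg0 : 0 ≤ g := by rw [hgdef]; linarith
  rw [(hcrc n f c hc0 hc1).2, (hcrc n f d hd0 hd1).2]
  have ec : ∫ x in (0 : ℝ)..c, x ^ 2 * (1 - x ^ 2 / c ^ 2) ^ g * f x =
      (∫ x in (0 : ℝ)..d, FF f g c x) + ∫ x in d..c, FF f g c x := by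
    rw [intervalIntegral.integral_add_adjacent_intervals
      (FF_int f hf g c 0 d hg0 hc0 hc1 le_rfl hd0.le hdc)
      (FF_int f hf g c d c hg0 hc0 hc1 hd0.le hdc le_rfl)]
    rfl
  have ed : ∫ x in (0 : ℝ)..d, x ^ 2 * (1 - x ^ 2 / d ^ 2) ^ g * f x =
      ∫ x in (0 : ℝ)..d, FF f g d x := rfl
  rw [ec, ed]
  have ic1 := FF_int f hf g c 0 d hg0 hc0 hc1 le_rfl hd0.le hdc
  have ic2 := FF_int f hf g c d c hg0 hc0 hc1 hd0.le hdc le_rfl
  have id1 := FF_int f hf g d 0 d hg0 hd0 hd1 le_rfl hd0.le le_rfl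
  rcases Nat.lt_or_ge 4 n with h5 | h4
  · -- n ≥ 5
    have h5R : (5 : ℝ) ≤ n := by exact_mod_cast h5
    have hg2 : 1 / 2 ≤ g := by rw [hgdef]; linarith
    obtain ⟨w1, w2⟩ := wt_int hpwi c hc0
    set K := max 1 g * (16 / 9) with hK
    have hK0 : 0 ≤ K := by positivity
    have hKn : K ≤ n := by
      rw [hK]
      rcases le_total 1 g with h | h
      · rw [max_eq_right h, hgdef]; linarith
      · rw [max_eq_left h]; linarith
    set G : ℝ → ℝ := fun x => (M * K * D) * (x * (1 - x ^ 2 / c ^ 2) ^ (-(1 / 2) : ℝ)) with hG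
    have iG : IntervalIntegrable G volume 0 c := w1.const_mul _
    have iG1 : IntervalIntegrable G volume 0 d :=
      iG.mono_set (by rw [uIcc_of_le hd0.le, uIcc_of_le hc0.le]; exact Icc_subset_Icc le_rfl hdc)
    have iG2 : IntervalIntegrable G volume d c :=
      iG.mono_set (by rw [uIcc_of_le hdc, uIcc_of_le hc0.le]; exact Icc_subset_Icc hd0.le le_rfl)
    have hGint : (∫ x in (0 : ℝ)..d, G x) + ∫ x in d..c, G x = M * K * D * c ^ 2 := by
      rw [intervalIntegral.integral_add_adjacent_intervals iG1 iG2, hG,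
        intervalIntegral.integral_const_mul, w2]
    -- the quotient bound
    have hcd : 1 / d ^ 2 - 1 / c ^ 2 ≤ 16 / 9 * D := by
      have hc34 : 3 / 4 ≤ c ^ 2 := by rw [hc2]; linarith
      have hd34 : 3 / 4 ≤ d ^ 2 := by rw [hd2]; linarith
      have e : 1 / d ^ 2 - 1 / c ^ 2 = D / (c ^ 2 * d ^ 2) := by
        rw [hDdef]
        field_simp
        rw [hc2, hd2]
        ring
      rw [e, div_le_iff₀ (by positivity)]
      have : 9 / 16 ≤ c ^ 2 * d ^ 2 := by nlinarith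
      nlinarith
    have hcore : ∀ x v : ℝ, 0 < x → x < c → 0 ≤ v → v ≤ 1 - x ^ 2 / c ^ 2 →
        (1 - x ^ 2 / c ^ 2) - v ≤ 16 / 9 * D * x ^ 2 →
        x ^ 2 * ((1 - x ^ 2 / c ^ 2) ^ g - v ^ g) * f x ≤ G x := by
      intro x v hx0 hxc hv0 hvu huv
      have hu1 : 1 - x ^ 2 / c ^ 2 ≤ 1 := (u_bd c x hc0 hx0.le hxc.le).2
      have hu0 : 0 < 1 - x ^ 2 / c ^ 2 := by
        have : x ^ 2 / c ^ 2 < 1 := by
          rw [div_lt_one (by positivity)]
          nlinarith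
        linarith
      have hx1 : x < 1 := hxc.trans_le hc1
      have hfx := hfM x hx0 hx1
      have hfx0 := hf.nonneg x ⟨hx0.le, hx1.le⟩
      set u := 1 - x ^ 2 / c ^ 2 with hu
      have hus : 0 < u ^ (-(1 / 2) : ℝ) := Real.rpow_pos_of_pos hu0 _
      have hmx : 0 ≤ max 1 g := le_trans zero_le_one (le_max_left _ _)
      have k1 := pow_key u v g hu0 hu1 hv0 hvu hg2
      have k2 : u ^ g - v ^ g ≤ max 1 g * u ^ (-(1 / 2) : ℝ) * (16 / 9 * D * x ^ 2) :=
        k1.trans (mul_le_mul_of_nonneg_left huv (mul_nonneg hmx hus.le))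
      have k3 : 0 ≤ max 1 g * u ^ (-(1 / 2) : ℝ) * (16 / 9 * D * x ^ 2) := by positivity
      have hx4 : x ^ 2 * x ^ 2 ≤ x := by
        have h1 : x ^ 2 ≤ x := by nlinarith
        have h2 : x ^ 2 ≤ 1 := by nlinarith
        nlinarith [sq_nonneg x]
      calc x ^ 2 * (u ^ g - v ^ g) * f x
          ≤ x ^ 2 * (max 1 g * u ^ (-(1 / 2) : ℝ) * (16 / 9 * D * x ^ 2)) * f x :=
            mul_le_mul_of_nonneg_right (mul_le_mul_of_nonneg_left k2 (sq_nonneg x)) hfx0
        _ ≤ x ^ 2 * (max 1 g * u ^ (-(1 / 2) : ℝ) * (16 / 9 * D * x ^ 2)) * M :=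
            mul_le_mul_of_nonneg_left hfx (mul_nonneg (sq_nonneg x) k3)
        _ = (M * K * D * u ^ (-(1 / 2) : ℝ)) * (x ^ 2 * x ^ 2) := by rw [hK]; ring
        _ ≤ (M * K * D * u ^ (-(1 / 2) : ℝ)) * x :=
            mul_le_mul_of_nonneg_left hx4 (by positivity)
        _ = G x := by rw [hG]; ring
    have b1 : ∫ x in (0 : ℝ)..d, FF f g c x ≤
        (∫ x in (0 : ℝ)..d, FF f g d x) + ∫ x in (0 : ℝ)..d, G x := by
      rw [← intervalIntegral.integral_add id1 iG1]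
      apply intervalIntegral.integral_mono_on_of_le_Ioo hd0.le ic1 (id1.add iG1)
      intro x hx
      have hv := u_bd d x hd0 hx.1.le hx.2.le
      have hvu : 1 - x ^ 2 / d ^ 2 ≤ 1 - x ^ 2 / c ^ 2 := by
        have : x ^ 2 / c ^ 2 ≤ x ^ 2 / d ^ 2 := by
          apply div_le_div_of_nonneg_left (sq_nonneg x) (by positivity)
          nlinarith
        linarith
      have h := hcore x (1 - x ^ 2 / d ^ 2) hx.1 (hx.2.trans_le hdc) hv.1 hvu (by
        have e : (1 - x ^ 2 / c ^ 2) - (1 - x ^ 2 / d ^ 2) = (1 / d ^ 2 - 1 / c ^ 2) * x ^ 2 := by ring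
        rw [e]
        exact mul_le_mul_of_nonneg_right hcd (sq_nonneg x))
      simp only [FF]
      have e : x ^ 2 * ((1 - x ^ 2 / c ^ 2) ^ g - (1 - x ^ 2 / d ^ 2) ^ g) * f x =
        x ^ 2 * (1 - x ^ 2 / c ^ 2) ^ g * f x - x ^ 2 * (1 - x ^ 2 / d ^ 2) ^ g * f x := by ring
      rw [e] at h
      linarith
    have b2 : ∫ x in d..c, FF f g c x ≤ ∫ x in d..c, G x := by
      apply intervalIntegral.integral_mono_on_of_le_Ioo hdc ic2 iG2
      intro x hx
      have hx0 : 0 < x := hd0.trans hx.1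
      have hu := u_bd c x hc0 hx0.le hx.2.le
      have h := hcore x 0 hx0 hx.2 le_rfl hu.1 (by
        have h1 : 1 ≤ x ^ 2 / d ^ 2 := by
          rw [le_div_iff₀ (by positivity)]
          nlinarith [hx.1]
        have e : x ^ 2 / d ^ 2 - x ^ 2 / c ^ 2 = (1 / d ^ 2 - 1 / c ^ 2) * x ^ 2 := by ring
        have h2 := mul_le_mul_of_nonneg_right hcd (sq_nonneg x)
        linarith)
      rw [Real.zero_rpow (by linarith), sub_zero] at h
      exact h
    have hfin : M * K * D * c ^ 2 ≤ n * M * D := by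
      have hc21 : c ^ 2 ≤ 1 := by nlinarith
      have h1 : M * K * D * c ^ 2 ≤ M * K * D * 1 :=
        mul_le_mul_of_nonneg_left hc21 (by positivity)
      have h2 : M * D * K ≤ M * D * n := mul_le_mul_of_nonneg_left hKn (by positivity)
      nlinarith
    linarith
  · -- n = 4
    have hn4 : n = 4 := le_antisymm h4 hn
    have hg : g = 0 := by rw [hgdef, hn4]; norm_num
    have e1 : ∀ x, FF f g c x = x ^ 2 * f x := by intro x; simp only [FF, hg, Real.rpow_zero, mul_one]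
    have e2 : ∀ x, FF f g d x = x ^ 2 * f x := by intro x; simp only [FF, hg, Real.rpow_zero, mul_one]
    have e3 : (∫ x in (0 : ℝ)..d, FF f g c x) = ∫ x in (0 : ℝ)..d, FF f g d x := by
      simp only [e1, e2]
    have b : ∫ x in d..c, FF f g c x ≤ ∫ _x in d..c, M := by
      apply intervalIntegral.integral_mono_on_of_le_Ioo hdc ic2 (by simp)
      intro x hx
      rw [e1]
      have hx0 : 0 < x := hd0.trans hx.1
      have hx1 : x < 1 := hx.2.trans_le hc1
      have hfx := hfM x hx0 hx1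
      have hfx0 := hf.nonneg x ⟨hx0.le, hx1.le⟩
      have hx2 : x ^ 2 ≤ 1 := by nlinarith
      nlinarith
    rw [intervalIntegral.integral_const, smul_eq_mul] at b
    rw [e3]
    have hcd1 : 1 ≤ c + d := by
      have : 1 / 2 ≤ d := by nlinarith
      linarith
    have hD' : D = (c - d) * (c + d) := by
      have : (c - d) * (c + d) = c ^ 2 - d ^ 2 := by ring
      rw [this, hc2, hd2, hDdef]; ring
    have h1 : (c - d) * M ≤ M * D := by
      rw [hD']
      have : (c - d) * 1 ≤ (c - d) * (c + d) := mul_le_mul_of_nonneg_left hcd1 (by linarith)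
      nlinarith
    have h2 : M * D ≤ n * M * D := by
      have : 0 ≤ M * D := by positivity
      nlinarith
    linarith

end Pool.Agent.REV.H17
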