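import Pool.Agent.REV.StmtsA2

set_option autoImplicit false

namespace Pool.Agent.REV.H17

open Set MeasureTheory Pool.Agent.REV

theorem sgb_key (i : ℕ) (hi : 1 ≤ i) (a b A X C1 C2 S s : ℝ) (ha : 0 ≤ a) (haA : a ≤ A)
    (hbA : b ≤ A * X) (hX : 1 ≤ X) (h1 : 0 ≤ C1) (h2 : 0 ≤ C2) (hs : 0 ≤ s) (hsS : s ≤ S) :
    s * (C1 * a ^ i + C2 * (b * a ^ (i - 1))) ≤ S * ((C1 + C2) * A ^ i) * X := by
  obtain ⟨k, rfl⟩ : ∃ k, i = k + 1 := ⟨i - 1, by omega⟩
  have hA : 0 ≤ A := ha.trans haA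
  have hk : k + 1 - 1 = k := by omega
  rw [hk]
  have e1 : a ^ (k + 1) ≤ A ^ (k + 1) * X := by
    calc a ^ (k + 1) ≤ A ^ (k + 1) := pow_le_pow_left₀ ha haA _
      _ ≤ A ^ (k + 1) * X := le_mul_of_one_le_right (pow_nonneg hA _) hX
  have e2 : b * a ^ k ≤ A ^ (k + 1) * X := by
    calc b * a ^ k ≤ (A * X) * a ^ k := mul_le_mul_of_nonneg_right hbA (pow_nonneg ha _)
      _ ≤ (A * X) * A ^ k := by
          apply mul_le_mul_of_nonneg_left (pow_le_pow_left₀ ha haA _)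
          exact mul_nonneg hA (by linarith)
      _ = A ^ (k + 1) * X := by ring
  have hP : 0 ≤ A ^ (k + 1) * X := mul_nonneg (pow_nonneg hA _) (by linarith)
  have e3 : C1 * a ^ (k + 1) + C2 * (b * a ^ k) ≤ (C1 + C2) * (A ^ (k + 1) * X) := by
    have := mul_le_mul_of_nonneg_left e1 h1
    have := mul_le_mul_of_nonneg_left e2 h2
    nlinarith
  calc s * (C1 * a ^ (k + 1) + C2 * (b * a ^ k))
      ≤ s * ((C1 + C2) * (A ^ (k + 1) * X)) := mul_le_mul_of_nonneg_left e3 hs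
    _ ≤ S * ((C1 + C2) * (A ^ (k + 1) * X)) :=
        mul_le_mul_of_nonneg_right hsS (mul_nonneg (by linarith) hP)
    _ = S * ((C1 + C2) * A ^ (k + 1)) * X := by ring

theorem sgb_c (t : ℝ) (h0 : 0 < t) (h1 : t < 1) :
    0 < Real.sqrt (1 - t ^ 2) ∧ Real.sqrt (1 - t ^ 2) < 1 ∧ Real.sqrt (1 - t ^ 2) ≤ 1 ∧
      1 - Real.sqrt (1 - t ^ 2) ^ 2 = t ^ 2 ∧ 0 < 1 - t ^ 2 := by
  have h : 0 < 1 - t ^ 2 := by nlinarith
  have hs : Real.sqrt (1 - t ^ 2) ^ 2 = 1 - t ^ 2 := Real.sq_sqrt h.le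
  have hp : 0 < Real.sqrt (1 - t ^ 2) := Real.sqrt_pos.mpr h
  have hl : Real.sqrt (1 - t ^ 2) < 1 := by
    rw [Real.sqrt_lt' one_pos]
    nlinarith [pow_pos h0 2]
  exact ⟨hp, hl, hl.le, by rw [hs]; ring, h⟩

theorem sgb_pow (i : ℕ) (t : ℝ) (h : 0 < 1 - t ^ 2) :
    (Real.sqrt (1 - t ^ 2) ^ (-(1 / 4) : ℝ)) ^ i = (1 - t ^ 2) ^ (-((i : ℝ) / 8)) := by
  rw [Real.sqrt_eq_rpow, ← Real.rpow_mul h.le, ← Real.rpow_natCast, ← Real.rpow_mul h.le]
  congr 1
  ring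

theorem sgb_t (t : ℝ) (h0 : 0 < t) : (t ^ 2) ^ (-(1 / 8) : ℝ) = t ^ (-(1 / 4) : ℝ) := by
  rw [← Real.rpow_natCast, ← Real.rpow_mul h0.le]
  congr 1
  norm_num

theorem sgb (hint : IntStmt) (hrab : RabStmt) (hrbl : RblStmt) (hrbs : RbsStmt) : SgbStmt := by
  intro n i C1 C2 S s M f hn hi hin h1 h2 hs hsS hM hf
  have hiR : (i : ℝ) + 2 ≤ n := by exact_mod_cast hin
  have hi0 : (0 : ℝ) ≤ i := Nat.cast_nonneg i
  have hnR : (4 : ℝ) ≤ n := by exact_mod_cast hn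
  have hpos := fun (c : ℝ) (hc0 : 0 ≤ c) (hc1 : c ≤ 1) => ((hint n f hn hf).2 c hc0 hc1).2.2
  refine ⟨?_, ?_, ?_, ?_⟩
  · intro hB t ht0 ht1
    obtain ⟨hc0, hc1, hc1', hcc, ht⟩ := sgb_c t ht0 ht1
    set c := Real.sqrt (1 - t ^ 2) with hc
    have hy : 0 < c ^ (-(1 / 4) : ℝ) := Real.rpow_pos_of_pos hc0 _
    have ra := hrab n (1 / 4) ((i : ℝ) / 2) M c f hn (by norm_num) (by norm_num) (by positivity)
      (by linarith) hM hf hB hc0 hc1'
    have rb := hrbl n (1 / 4) ((i : ℝ) / 2) M c f hn (by norm_num) (by norm_num) (by positivity)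
      (by linarith) hM hf hB hc0 hc1
    rw [hcc, sgb_t t ht0] at rb
    have hX : 1 ≤ t ^ (-(1 / 4) : ℝ) :=
      Real.one_le_rpow_of_pos_of_le_one_of_nonpos ht0 ht1.le (by norm_num)
    have ra' : RA n f c ≤ 4 * M * c ^ (-(1 / 4) : ℝ) := by
      refine ra.trans (mul_le_mul_of_nonneg_right ?_ hy.le)
      have : M / (1 - 1 / 4) = (4 / 3) * M := by ring
      rw [this]; nlinarith
    have := sgb_key i hi (RA n f c) (RB n f c) (4 * M * c ^ (-(1 / 4) : ℝ)) (t ^ (-(1 / 4) : ℝ))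
      C1 C2 S s (hpos c hc0.le hc1').1 ra' rb hX h1 h2 hs hsS
    simp only [TT]
    rw [← hc]
    refine this.trans (le_of_eq ?_)
    rw [mul_pow, hc, sgb_pow i t ht]
    ring
  · intro hB t ht0 ht1
    obtain ⟨hc0, hc1, hc1', hcc, ht⟩ := sgb_c t ht0 ht1
    set c := Real.sqrt (1 - t ^ 2) with hc
    have hy : 0 < c ^ (-(1 / 4) : ℝ) := Real.rpow_pos_of_pos hc0 _
    have ra := hrab n (1 / 4) ((i : ℝ) / 8) M c f hn (by norm_num) (by norm_num) (by positivity)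
      (by linarith) hM hf hB hc0 hc1'
    have rb := hrbs n (1 / 4) ((i : ℝ) / 8) M c f hn (by norm_num) (by norm_num) (by positivity)
      (by linarith) hM hf hB hc0 hc1'
    have ra' : RA n f c ≤ 4 * M * c ^ (-(1 / 4) : ℝ) := by
      refine ra.trans (mul_le_mul_of_nonneg_right ?_ hy.le)
      have : M / (1 - 1 / 4) = (4 / 3) * M := by ring
      rw [this]; nlinarith
    have rb' : RB n f c ≤ 4 * M * c ^ (-(1 / 4) : ℝ) * 1 := by
      rw [mul_one]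
      refine rb.trans (mul_le_mul_of_nonneg_right ?_ hy.le)
      nlinarith
    have := sgb_key i hi (RA n f c) (RB n f c) (4 * M * c ^ (-(1 / 4) : ℝ)) 1
      C1 C2 S s (hpos c hc0.le hc1').1 ra' rb' le_rfl h1 h2 hs hsS
    simp only [TT]
    rw [← hc]
    refine this.trans (le_of_eq ?_)
    rw [mul_pow, hc, sgb_pow i t ht, neg_zero, Real.rpow_zero]
    ring
  · intro hB t ht0 ht1
    obtain ⟨hc0, hc1, hc1', hcc, ht⟩ := sgb_c t ht0 ht1
    set c := Real.sqrt (1 - t ^ 2) with hc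
    have ra := hrab n 0 ((i : ℝ) / 8) M c f hn le_rfl (by norm_num) (by positivity)
      (by linarith) hM hf hB hc0 hc1'
    have rb := hrbs n 0 ((i : ℝ) / 8) M c f hn le_rfl (by norm_num) (by positivity)
      (by linarith) hM hf hB hc0 hc1'
    rw [neg_zero, Real.rpow_zero] at ra rb
    have ra' : RA n f c ≤ 4 * M := by
      refine ra.trans ?_
      rw [sub_zero, div_one]
      nlinarith
    have rb' : RB n f c ≤ 4 * M * 1 := by nlinarith
    have := sgb_key i hi (RA n f c) (RB n f c) (4 * M) 1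
      C1 C2 S s (hpos c hc0.le hc1').1 ra' rb' le_rfl h1 h2 hs hsS
    simp only [TT]
    rw [← hc]
    refine this.trans (le_of_eq ?_)
    rw [neg_zero, Real.rpow_zero, Real.rpow_zero]
    ring
  · intro hB t ht0 ht1
    obtain ⟨hc0, hc1, hc1', hcc, ht⟩ := sgb_c t ht0 ht1
    set c := Real.sqrt (1 - t ^ 2) with hc
    have ra := hrab n 0 0 M c f hn le_rfl (by norm_num) le_rfl
      (by linarith) hM hf hB hc0 hc1'
    have rb := hrbs n 0 0 M c f hn le_rfl (by norm_num) le_rfl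
      (by linarith) hM hf hB hc0 hc1'
    rw [neg_zero, Real.rpow_zero] at ra rb
    have ra' : RA n f c ≤ 4 * M := by
      refine ra.trans ?_
      rw [sub_zero, div_one]
      nlinarith
    have rb' : RB n f c ≤ 4 * M * 1 := by nlinarith
    have := sgb_key i hi (RA n f c) (RB n f c) (4 * M) 1
      C1 C2 S s (hpos c hc0.le hc1').1 ra' rb' le_rfl h1 h2 hs hsS
    simp only [TT]
    rw [← hc]
    refine this.trans (le_of_eq ?_)
    rw [neg_zero, Real.rpow_zero, Real.rpow_zero]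
    ring

end Pool.Agent.REV.H17
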